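import Mathlib
import Pool.Agent.N988.EA.Defs

/-!
# The bond overlap of the Edwards-Anderson model on hierarchical lattices: definitions

The lattices `H n` (edges `Edge b n`, vertices `Pt b n`) and `act`, minus the energy, are defined in
`Pool.Agent.N988.EA.Defs`.
-/

open MeasureTheory
open Pool.Agent.N988.EA

namespace Pool.Agent.N988.EC

noncomputable section

/-- Ground states of `H n` with free boundary conditions: the configurations of all vertices with
the least energy. -/
def IsGS {b n : ℕ} (J : Edge b n → ℝ) (σ : Pt b n → Bool) : Prop :=
  ∀ s : Pt b n → Bool, act J (fun t => s (.inl t)) (fun x => s (.inr x)) ≤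
    act J (fun t => σ (.inl t)) (fun x => σ (.inr x))

/-- The product of the spins of the two ends of the edge `e`. -/
def bond {b n : ℕ} (σ : Pt b n → Bool) (e : Edge b n) : ℝ :=
  sg (σ (bd n e false)) * sg (σ (bd n e true))

open Classical in
/-- The product of the spins of the two ends of the edge `e` in the ground state of `H n` for the
couplings `J` (which is almost surely unique up to the global flip). -/
def gb {b n : ℕ} (J : Edge b n → ℝ) (e : Edge b n) : ℝ :=
  if ∃ σ, IsGS J σ ∧ bond σ e = 1 then 1 else -1

/-- The perturbation of the first kind of the couplings `q.1` by the couplings `q.2`. -/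
def pt1 {ι : Type} (p : ℝ) (q : (ι → ℝ) × (ι → ℝ)) : ι → ℝ :=
  fun a => (1 - p) * q.1 a + Real.sqrt (2 * p - p ^ 2) * q.2 a

/-- The perturbation of the second kind of the couplings `q.1`: they are replaced by the couplings
`q.2.1` where `q.2.2` is `true`. -/
def pt2 {ι : Type} (q : (ι → ℝ) × (ι → ℝ) × (ι → Bool)) : ι → ℝ :=
  fun a => if q.2.2 a then q.2.1 a else q.1 a

/-- The law of a coin with the probability `p` of `true`. -/
def coin (p : ℝ) : Measure Bool :=
  ENNReal.ofReal p • Measure.dirac true + ENNReal.ofReal (1 - p) • Measure.dirac false

/-- Independent variables with the law `ν` at all edges of `H n`. -/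
def iid {α : Type} [MeasurableSpace α] (ν : Measure α) (b n : ℕ) : Measure (Edge b n → α) :=
  Measure.pi fun _ => ν

end

end Pool.Agent.N988.EC
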