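import Mathlib
import Pool.Agent.N988.EC.Defs
import Pool.Agent.N988.EZ.Stm

/-!
# The bond overlap on hierarchical lattices: statements of the parts
-/

open MeasureTheory Set Filter
open scoped ENNReal Topology
open Pool.Agent.N988.EA Pool.Agent.N988.EZ

namespace Pool.Agent.N988.EC

noncomputable section

/-- The bond `e` has the product `c` in all ground states of `H n`, for all end spins. -/
def Dec {b n : ℕ} (e : Edge b n) (J : Edge b n → ℝ) (c : ℝ) : Prop :=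
  ∀ (τ : Bool → Bool) (σ : Vert b n → Bool), Mx J τ σ → bond (Sum.elim τ σ : Pt b n → Bool) e = c

/-- The same for the ground states with free boundary conditions. -/
def DecF {b n : ℕ} (e : Edge b n) (J : Edge b n → ℝ) (c : ℝ) : Prop :=
  ∀ σ : Pt b n → Bool, IsGS J σ → bond σ e = c

/-- `D J c` holds for a `c` and is stable. -/
def Stab {ι : Type} (D : (ι → ℝ) → ℝ → Prop) (J : ι → ℝ) : Prop :=
  ∃ c δ : ℝ, 0 < δ ∧ ∀ J', (∀ a, |J' a - J a| < δ) → D J' c

/-- The edge of `H 0` as an edge of `H n`. -/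
def eo {b : ℕ} (p : ℕ → Fin b × Bool) : (n : ℕ) → Edge b n
  | 0 => ()
  | n + 1 => ((p n).1, (p n).2, eo p n)

/-- C1, S_UNI: extracted from the proof of `ae_all` (with `k = 0`: `hle`) and `no_tie` in
`Pool/Agent/N700/EZ_IO0.lean`. -/
def S_UNI : Prop := ∀ (b : ℕ), 2 ≤ b → ∃ r : ℝ, 0 ≤ r ∧ r < 1 ∧
  ∀ (μ : Measure ℝ) [IsProbabilityMeasure μ], (∀ x, μ {x} = 0) → μ.map (fun x => -x) = μ →
  ∀ (p : ℕ → Fin b × Bool) (j : ℕ), (Measure.infinitePi fun _ : EdgeInf b p => μ)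
    {J | ∀ m, m ≤ j → |own0 p J m| ≤ |sib0 p J m|} ≤ ENNReal.ofReal (r ^ j)

/-- C2, S_LOC (deterministic; from `S_RS`). Proof: `K0` is continuous in the couplings, so for `J'`
near `J` (on `H (m + 1)`) the inequality for the couplings and the sign of `own0` stay, and for each
`τ` the unique ground state of `H m` with end spins `τ` stays the same. By the second part of `S_RS`
in `H (m + 1)` the ends of `H m` have the product of the sign of `own0` (compare the proof of `S_DET`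
by helper186), and inside `H m` the state is the ground state with these ends, up to the flip. The
restriction of a ground state of `H N` to `H (m + 1)` is a ground state (`S_RS` repeatedly). -/
def S_LOC : Prop := ∀ (b : ℕ) (p : ℕ → Fin b × Bool) (m N : ℕ) (J : EdgeInf b p → ℝ), m < N →
  UM (cpl p J m) → |sib0 p J m| < |own0 p J m| → Stab (Dec (eo p N)) (cpl p J N)

/-- C3, S_FREE (free boundary conditions; from `S_MX`, `S_AT`). Proof: almost surely `UM J` and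
`K0 n J ≠ 0`; by `S_MX` the ground states are the ones with ends of the sign of `K0 n J`. -/
def S_FREE : Prop := ∀ (b : ℕ), 1 ≤ b → ∀ (μ : Measure ℝ) [IsProbabilityMeasure μ],
  (∀ x, μ {x} = 0) → ∀ n : ℕ, ∀ᵐ J ∂(iid μ b n),
    (∃ σ : Pt b n → Bool, IsGS J σ ∧ ∀ σ', IsGS J σ' ↔ σ' = σ ∨ σ' = fun x => !(σ x)) ∧
    ∀ e, Stab (DecF e) J

/-- C4, S_CELL (cells of `H n`; from `S_RS`). Proof by induction on `n - N`. A ground state with free
boundary conditions is one with its own end spins; `e = (i, h, e')` and the restriction to the half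
`h` of the branch `i` is a ground state with its end spins by `S_RS`. -/
def S_CELL : Prop := ∀ (b N n : ℕ), N ≤ n → ∀ e : Edge b n, ∃ (f : Edge b N → Edge b n)
  (e₀ : Edge b N), Function.Injective f ∧ f e₀ = e ∧
    ∀ (J : Edge b n → ℝ) (σ : Pt b n → Bool), IsGS J σ → ∃ (τ : Bool → Bool)
      (s : Vert b N → Bool), Mx (fun a => J (f a)) τ s ∧
        bond (Sum.elim τ s : Pt b N → Bool) e₀ = bond σ e

/-- C5, S_INJ (marginals of product measures). -/
def S_INJ : Prop := ∀ (ι κ α : Type) [Fintype ι] [Fintype κ] [MeasurableSpace α] (ν : Measure α)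
  [IsProbabilityMeasure ν] (f : κ → ι), Function.Injective f →
  (Measure.pi fun _ : ι => ν).map (fun x k => x (f k)) = Measure.pi fun _ : κ => ν

/-- C6, S_P1 (small perturbations of the first kind). Proof: the sets
`B k = {J | ∃ c δ, 1 / (k + 1) < δ ∧ …}` are open and increase to `{J | Stab D J}`; the probability of
`∃ a, 1 / (k + 1) ≤ |pt1 p q a - q.1 a|` tends to `0` as `p → 0` (`pt1 p q → q.1` pointwise). -/
def S_P1 : Prop := ∀ (ι : Type) [Fintype ι] (μ : Measure ℝ) [IsProbabilityMeasure μ]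
  (D : (ι → ℝ) → ℝ → Prop) (ε : ℝ≥0∞), 0 < ε → ∃ p₀ : ℝ, 0 < p₀ ∧ p₀ ≤ 1 ∧
    ∀ p, 0 < p → p ≤ p₀ →
      ((Measure.pi fun _ : ι => μ).prod (Measure.pi fun _ : ι => μ))
        {q | ¬ ∃ c, D q.1 c ∧ D (pt1 p q) c} ≤ (Measure.pi fun _ : ι => μ) {J | ¬ Stab D J} + ε

/-- C7, S_P2 (small perturbations of the second kind). Proof: if all coins are `false` then
`pt2 q = q.1`; the probability that this is not the case is at most `p` times the number of the
edges. `coin p` is a probability measure for `0 ≤ p ≤ 1`. -/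
def S_P2 : Prop := ∀ (ι : Type) [Fintype ι] (μ : Measure ℝ) [IsProbabilityMeasure μ]
  (D : (ι → ℝ) → ℝ → Prop) (ε : ℝ≥0∞), 0 < ε → ∃ p₀ : ℝ, 0 < p₀ ∧ p₀ ≤ 1 ∧
    ∀ p, 0 < p → p ≤ p₀ →
      ((Measure.pi fun _ : ι => μ).prod ((Measure.pi fun _ : ι => μ).prod
        (Measure.pi fun _ : ι => coin p))) {q | ¬ ∃ c, D q.1 c ∧ D (pt2 q) c} ≤
          (Measure.pi fun _ : ι => μ) {J | ¬ Stab D J} + ε

/-- C8, S_BAD (from `S_UNI`, `S_LOC`, `S_AT`, `S_MARG`). Proof: every `e` is `eo p N` for some `p`;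
by `S_MARG` the couplings of `H N` have the law `iid μ b N`; almost surely `UM (cpl p J m)` for all
`m`; so with `S_LOC` for `m ≤ N - 1`, and `S_UNI` with `j = N - 1`. (For the measurability use
`Measure.map_apply_of_aemeasurable` and `toMeasurable`, or that `{J | Stab D J}` is open.) -/
def S_BAD : Prop := ∀ (b : ℕ), 2 ≤ b → ∀ (μ : Measure ℝ) [IsProbabilityMeasure μ],
  (∀ x, μ {x} = 0) → μ.map (fun x => -x) = μ → ∀ ε : ℝ≥0∞, 0 < ε →
    ∃ N : ℕ, ∀ e : Edge b N, (iid μ b N) {J | ¬ Stab (Dec e) J} ≤ ε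

/-- C9, S_EX (expectation). Proof: `gb` is measurable (finite unions of closed sets), has values
`1` and `-1`, and where `∃ c, DecF e J c ∧ DecF e J' c` both values are equal (ground states
exist, `bond` is `1` or `-1`). -/
def S_EX : Prop := ∀ (b n : ℕ) (e : Edge b n) (Ω : Type) [MeasurableSpace Ω] (P : Measure Ω)
  [IsProbabilityMeasure P] (X Y : Ω → Edge b n → ℝ), Measurable X → Measurable Y →
  ∀ ε : ℝ, 0 ≤ ε → P {ω | ¬ ∃ c, DecF e (X ω) c ∧ DecF e (Y ω) c} ≤ ENNReal.ofReal ε →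
    1 - 2 * ε ≤ ∫ ω, gb (X ω) e * gb (Y ω) e ∂P

/-- The result. -/
def S_BO : Prop := ∀ (b : ℕ), 2 ≤ b → ∀ (μ : Measure ℝ) [IsProbabilityMeasure μ],
  (∀ x, μ {x} = 0) → μ.map (fun x => -x) = μ →
  (∀ n : ℕ, ∀ᵐ J ∂(iid μ b n),
    ∃ σ : Pt b n → Bool, IsGS J σ ∧ ∀ σ', IsGS J σ' ↔ σ' = σ ∨ σ' = fun x => !(σ x)) ∧
  ∀ ε : ℝ, 0 < ε → ∃ p₀ : ℝ, 0 < p₀ ∧ ∀ p : ℝ, 0 < p → p ≤ p₀ → ∀ (n : ℕ) (e : Edge b n),
    1 - ε ≤ ∫ q, gb q.1 e * gb (pt1 p q) e ∂((iid μ b n).prod (iid μ b n)) ∧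
    1 - ε ≤ ∫ q, gb q.1 e * gb (pt2 q) e
      ∂((iid μ b n).prod ((iid μ b n).prod (iid (coin p) b n)))

/-- C10, S_ASM (assembly of the bounds of the probabilities; from `S_BAD`, `S_FREE`, `S_CELL`,
`S_INJ`, `S_P1`, `S_P2`). Proof: take `N` with `S_BAD` for `ε / 2`, and `p₀` the minimum over the
finitely many `e₀ : Edge b N` of the ones of `S_P1`, `S_P2` for `Dec e₀` and `ε / 2`, and over the
finitely many `e : Edge b n`, `n < N` of the ones for `DecF e` (there `Stab` holds almost surely).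
For `N ≤ n` use `S_CELL`: `DecF e J c` follows from `Dec e₀ (J ∘ f) c`, and
`pt1 p q ∘ f = pt1 p (q.1 ∘ f, q.2 ∘ f)`; the law of `(q.1 ∘ f, q.2 ∘ f)` is given by `S_INJ`
(`Measure.map_prod_map`); the same for `pt2`. -/
def S_ASM : Prop := ∀ (b : ℕ), 2 ≤ b → ∀ (μ : Measure ℝ) [IsProbabilityMeasure μ],
  (∀ x, μ {x} = 0) → μ.map (fun x => -x) = μ →
  ∀ ε : ℝ≥0∞, 0 < ε → ∃ p₀ : ℝ, 0 < p₀ ∧ p₀ ≤ 1 ∧ ∀ p : ℝ, 0 < p → p ≤ p₀ →
    ∀ (n : ℕ) (e : Edge b n),
      ((iid μ b n).prod (iid μ b n)) {q | ¬ ∃ c, DecF e q.1 c ∧ DecF e (pt1 p q) c} ≤ ε ∧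
      ((iid μ b n).prod ((iid μ b n).prod (iid (coin p) b n)))
        {q | ¬ ∃ c, DecF e q.1 c ∧ DecF e (pt2 q) c} ≤ ε

end

end Pool.Agent.N988.EC
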