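import Mathlib
import Pool.Agent.N988.EC.Stm

/-!
# The bond overlap on hierarchical lattices: the result from the parts
-/

open MeasureTheory Set Filter
open scoped ENNReal Topology
open Pool.Agent.N988.EA Pool.Agent.N988.EZ

namespace Pool.Agent.N988.EC

theorem coin_prob {p : ℝ} (h0 : 0 ≤ p) (h1 : p ≤ 1) : IsProbabilityMeasure (coin p) := by
  constructor
  unfold coin
  rw [Measure.add_apply, Measure.smul_apply, Measure.smul_apply, measure_univ, measure_univ,
    smul_eq_mul, smul_eq_mul, mul_one, mul_one, ← ENNReal.ofReal_add h0 (by linarith)]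
  simp

instance iid_prob {α : Type} [MeasurableSpace α] (ν : Measure α) [IsProbabilityMeasure ν]
    (b n : ℕ) : IsProbabilityMeasure (iid ν b n) := by
  unfold iid
  infer_instance

theorem meas_pt1 {ι : Type} (p : ℝ) :
    Measurable (fun q : (ι → ℝ) × (ι → ℝ) => pt1 p q) := by
  unfold pt1
  refine measurable_pi_lambda _ fun a => ?_
  fun_prop

theorem meas_pt2 {ι : Type} :
    Measurable (fun q : (ι → ℝ) × (ι → ℝ) × (ι → Bool) => pt2 q) := by
  unfold pt2
  refine measurable_pi_lambda _ fun a => ?_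
  have h1 : Measurable (fun q : (ι → ℝ) × (ι → ℝ) × (ι → Bool) => q.2.2 a) := by fun_prop
  refine Measurable.ite ?_ (by fun_prop) (by fun_prop)
  exact h1 (measurableSet_singleton true)

theorem t_BO (h1 : S_FREE) (h2 : S_ASM) (h3 : S_EX) : S_BO := by
  intro b hb μ _ ha hs
  refine ⟨fun n => (h1 b (by omega) μ ha n).mono fun J h => h.1, fun ε hε => ?_⟩
  obtain ⟨p₀, hp0, hp1, hp⟩ := h2 b hb μ ha hs (ENNReal.ofReal (ε / 2))
    (ENNReal.ofReal_pos.2 (by positivity))
  refine ⟨p₀, hp0, fun p h4 h5 n e => ?_⟩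
  obtain ⟨a1, a2⟩ := hp p h4 h5 n e
  haveI := coin_prob h4.le (h5.trans hp1)
  have e1 : 1 - ε = 1 - 2 * (ε / 2) := by ring
  rw [e1]
  constructor
  · exact h3 b n e _ ((iid μ b n).prod (iid μ b n)) (fun q => q.1) (fun q => pt1 p q)
      measurable_fst (meas_pt1 p) (ε / 2) (by positivity) a1
  · exact h3 b n e _ ((iid μ b n).prod ((iid μ b n).prod (iid (coin p) b n))) (fun q => q.1)
      (fun q => pt2 q) measurable_fst meas_pt2 (ε / 2) (by positivity) a2

end Pool.Agent.N988.EC
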