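import Pool.Agent.N988.EC.BO
import Pool.Agent.N574.EC_UNI
import Pool.Agent.N494.EC_LOC
import Pool.Agent.N370.EC_FREE
import Pool.Agent.N277.EC_CELL
import Pool.Agent.N485.EC_P
import Pool.Agent.N756.EC_BAD
import Pool.Agent.N432.EC_EX
import Pool.Agent.N478.EC_ASM

/-!
# The bond overlap on hierarchical lattices: assembly
-/

namespace Pool.Agent.N988.EC

theorem k_FREE : S_FREE := Pool.Agent.N370.EC.t_FREE
theorem k_BAD : S_BAD := Pool.Agent.N756.EC.t_BAD Pool.Agent.N574.EC.t_UNI Pool.Agent.N494.EC.t_LOC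
theorem k_ASM : S_ASM :=
  Pool.Agent.N478.EC.t_ASM k_BAD k_FREE Pool.Agent.N277.EC.t_CELL Pool.Agent.N277.EC.t_INJ
    Pool.Agent.N485.EC.t_P1 Pool.Agent.N485.EC.t_P2
theorem k_BO : S_BO := t_BO k_FREE k_ASM Pool.Agent.N432.EC.t_EX

end Pool.Agent.N988.EC
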